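import Mathlib

/-!
# Sums of exponential sequences
-/

set_option autoImplicit false

namespace Pool.Agent.K9h10.RG

open Finset Filter Topology

/-- the growth of the differences of a sum of exponential sequences -/
lemma growth (T : Finset ℝ) (c : ℝ → ℝ) (hT : ∀ β ∈ T, 1 < β) (hne : ∃ β ∈ T, c β ≠ 0) (ρ : ℝ)
    (hρ1 : 1 < ρ) (hρ : ∀ β ∈ T, ρ ≤ β) : ∃ x₀ : ℝ, 0 < x₀ ∧ ∃ i₁ : ℕ, ∀ i j : ℕ, i₁ ≤ i → j < i →
      x₀ * ρ ^ i ≤ |∑ β ∈ T, c β * (β ^ i - β ^ j)| := by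
  classical
  set T' := T.filter (fun β => c β ≠ 0) with hT'
  have hT'ne : T'.Nonempty := by
    obtain ⟨β, h1, h2⟩ := hne
    exact ⟨β, mem_filter.2 ⟨h1, h2⟩⟩
  set b := T'.max' hT'ne with hb
  have hbT' : b ∈ T' := T'.max'_mem hT'ne
  obtain ⟨hbT, hcb⟩ := mem_filter.1 hbT'
  have hb1 : 1 < b := hT b hbT
  have hb0 : 0 < b := by linarith
  have hcb0 : 0 < |c b| := abs_pos.2 hcb
  set δ : ℝ := |c b| * (1 - 1 / b) / 2 with hδ
  have hδ0 : 0 < δ := by
    have : 1 / b < 1 := by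
      rw [div_lt_one hb0]
      exact hb1
    have h2 : 0 < 1 - 1 / b := by linarith
    positivity
  -- the other terms are small
  have hsmall : Tendsto (fun i : ℕ => ∑ β ∈ T'.erase b, |c β| * (β / b) ^ i) atTop (𝓝 0) := by
    have h1 : Tendsto (fun i : ℕ => ∑ β ∈ T'.erase b, |c β| * (β / b) ^ i) atTop
        (𝓝 (∑ β ∈ T'.erase b, |c β| * 0)) := by
      apply tendsto_finsetSum
      intro β hβ
      rw [mem_erase] at hβ
      have hβT := (mem_filter.1 hβ.2).1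
      have hβ0 : 0 < β := by linarith [hT β hβT]
      have hβb : β < b := lt_of_le_of_ne (T'.le_max' β hβ.2) hβ.1
      apply Tendsto.const_mul
      apply tendsto_pow_atTop_nhds_zero_of_lt_one (by positivity)
      rw [div_lt_one hb0]
      exact hβb
    simpa using h1
  obtain ⟨i₁, hi₁⟩ := eventually_atTop.1 (hsmall.eventually (gt_mem_nhds hδ0))
  refine ⟨δ, hδ0, max i₁ 1, fun i j hi hj => ?_⟩
  have hi1 : i₁ ≤ i := (le_max_left _ _).trans hi
  have h1 : ∑ β ∈ T, c β * (β ^ i - β ^ j) = ∑ β ∈ T', c β * (β ^ i - β ^ j) := by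
    rw [hT', sum_filter]
    refine sum_congr rfl fun β _ => ?_
    split_ifs with h
    · rfl
    · push Not at h
      rw [h, zero_mul]
  have h2 : ∑ β ∈ T', c β * (β ^ i - β ^ j) =
      c b * (b ^ i - b ^ j) + ∑ β ∈ T'.erase b, c β * (β ^ i - β ^ j) :=
    (add_sum_erase T' (fun β => c β * (β ^ i - β ^ j)) hbT').symm
  have h3 : |∑ β ∈ T'.erase b, c β * (β ^ i - β ^ j)| ≤ δ * b ^ i := by
    have h4 : ∀ β ∈ T'.erase b, |c β * (β ^ i - β ^ j)| ≤ |c β| * (β / b) ^ i * b ^ i := by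
      intro β hβ
      rw [mem_erase] at hβ
      have hβT := (mem_filter.1 hβ.2).1
      have hβ1 : 1 < β := hT β hβT
      have hβ0 : 0 < β := by linarith
      rw [abs_mul, mul_assoc, div_pow, div_mul_cancel₀ _ (by positivity)]
      apply mul_le_mul_of_nonneg_left _ (abs_nonneg _)
      have h5 : β ^ j ≤ β ^ i := pow_le_pow_right₀ hβ1.le hj.le
      have h6 : 0 < β ^ j := by positivity
      rw [abs_of_nonneg (by linarith)]
      linarith
    refine (abs_sum_le_sum_abs _ _).trans ((sum_le_sum h4).trans ?_)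
    rw [← sum_mul]
    exact mul_le_mul_of_nonneg_right (hi₁ i hi1).le (by positivity)
  have h4 : 2 * δ * b ^ i ≤ |c b * (b ^ i - b ^ j)| := by
    have h5 : b ^ j ≤ b ^ i / b := by
      rw [le_div_iff₀ hb0, ← pow_succ]
      exact pow_le_pow_right₀ hb1.le hj
    rw [abs_mul]
    have h6 : b ^ i * (1 - 1 / b) ≤ |b ^ i - b ^ j| := by
      refine le_trans ?_ (le_abs_self _)
      have : b ^ i * (1 - 1 / b) = b ^ i - b ^ i / b := by ring
      linarith
    calc 2 * δ * b ^ i = |c b| * (b ^ i * (1 - 1 / b)) := by rw [hδ]; ring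
      _ ≤ |c b| * |b ^ i - b ^ j| := mul_le_mul_of_nonneg_left h6 (abs_nonneg _)
  have h5 : δ * ρ ^ i ≤ δ * b ^ i := by
    apply mul_le_mul_of_nonneg_left _ hδ0.le
    exact pow_le_pow_left₀ (by linarith) (hρ b hbT) _
  rw [h1, h2]
  have h6 : |c b * (b ^ i - b ^ j)| ≤ |c b * (b ^ i - b ^ j) +
      ∑ β ∈ T'.erase b, c β * (β ^ i - β ^ j)| + |∑ β ∈ T'.erase b, c β * (β ^ i - β ^ j)| := by
    have := abs_sub (c b * (b ^ i - b ^ j) + ∑ β ∈ T'.erase b, c β * (β ^ i - β ^ j))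
      (∑ β ∈ T'.erase b, c β * (β ^ i - β ^ j))
    rw [add_sub_cancel_right] at this
    exact this
  linarith

end Pool.Agent.K9h10.RG
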