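import Pool.Agent.K9h10.RP.Cnt

/-!
# Second moments, for general sequences
-/

set_option autoImplicit false

namespace Pool.Agent.K9h10.RG

open Finset Filter Topology
open Pool.Agent.H469R2.NK (e norm_e e_add e_zero conj_e)
open Pool.Agent.R485.Mult
open Pool.Agent.K9h10.RP (PH th th_nonneg wcount)

lemma sq_expand (n : ℕ) (f : ℕ → ℝ) :
    ((‖∑ i ∈ Icc 1 n, e (f i)‖ ^ 2 : ℝ) : ℂ) =
      ∑ p ∈ Icc 1 n ×ˢ Icc 1 n, e (f p.1 - f p.2) := by
  set S := ∑ i ∈ Icc 1 n, e (f i) with hS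
  have h1 : ((‖S‖ ^ 2 : ℝ) : ℂ) = S * (starRingEnd ℂ) S := by
    rw [Complex.mul_conj, Complex.normSq_eq_norm_sq]
  have h2 : (starRingEnd ℂ) S = ∑ i ∈ Icc 1 n, e (-(f i)) := by
    rw [hS, map_sum]
    exact sum_congr rfl fun i _ => conj_e _
  rw [h1, h2, hS, sum_mul_sum, sum_product]
  refine sum_congr rfl fun i _ => sum_congr rfl fun j _ => ?_
  rw [← e_add, sub_eq_add_neg]

/-- the pairs for which the difference of the frequencies is near to an integer -/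
noncomputable def Bd (n : ℕ) (κ : ℝ) (θ : ℕ → ℝ) : Finset (ℕ × ℕ) :=
  open Classical in (Icc 1 n ×ˢ Icc 1 n).filter fun p => ∃ P : ℤ, |θ p.1 - θ p.2 - P| ≤ κ

/-- the second moment -/
theorem mom2 (n : ℕ) (κ : ℝ) (hκ : 0 < κ) (Y θ : ℕ → ℝ) (J : ℤ) (M : ℕ) :
    ∑ m ∈ range M, ‖∑ i ∈ Icc 1 n, e (Y i + (J + m) * θ i)‖ ^ 2 ≤
      M * ((Bd n κ θ).card : ℝ) + (n : ℝ) ^ 2 * (2 / κ) := by
  classical
  set PP := Icc 1 n ×ˢ Icc 1 n with hPP
  have h1 : ((∑ m ∈ range M, ‖∑ i ∈ Icc 1 n, e (Y i + (J + m) * θ i)‖ ^ 2 : ℝ)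
      : ℂ) = ∑ p ∈ PP, ∑ m ∈ range M, e ((Y p.1 - Y p.2) + (J + m) * (θ p.1 - θ p.2)) := by
    rw [Complex.ofReal_sum, sum_comm]
    refine sum_congr rfl fun m _ => ?_
    rw [sq_expand n (fun i => Y i + (J + m) * θ i)]
    refine sum_congr rfl fun p _ => ?_
    congr 1
    ring
  have h2 : ∑ m ∈ range M, ‖∑ i ∈ Icc 1 n, e (Y i + (J + m) * θ i)‖ ^ 2 =
      ‖∑ p ∈ PP, ∑ m ∈ range M, e ((Y p.1 - Y p.2) + (J + m) * (θ p.1 - θ p.2))‖ := by
    rw [← h1, Complex.norm_real, Real.norm_eq_abs, abs_of_nonneg]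
    exact sum_nonneg fun m _ => by positivity
  rw [h2]
  have hκ2 : 0 < 2 / κ := by positivity
  have h3 : ∀ p ∈ PP, ‖∑ m ∈ range M, e ((Y p.1 - Y p.2) + (J + m) * (θ p.1 - θ p.2))‖ ≤
      (if ∃ P : ℤ, |θ p.1 - θ p.2 - P| ≤ κ then (M : ℝ) else 0) + 2 / κ := by
    intro p hp
    split_ifs with hp0
    · have : ‖∑ m ∈ range M, e ((Y p.1 - Y p.2) + (J + m) * (θ p.1 - θ p.2))‖ ≤ M := by
        refine (norm_sum_le _ _).trans ?_
        rw [sum_congr rfl fun m _ => norm_e _]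
        simp
      exact this.trans (le_add_of_nonneg_right hκ2.le)
    · rw [zero_add]
      push Not at hp0
      exact geom (θ p.1 - θ p.2) κ hκ hp0 (Y p.1 - Y p.2) J M
  refine (norm_sum_le _ _).trans ((sum_le_sum h3).trans ?_)
  rw [sum_add_distrib, ← sum_filter, sum_const, sum_const, nsmul_eq_mul, nsmul_eq_mul]
  apply add_le_add
  · rw [mul_comm]
    unfold Bd
    exact le_of_eq (by congr)
  · apply mul_le_mul_of_nonneg_right _ hκ2.le
    rw [hPP, card_product, Nat.card_Icc, Nat.add_sub_cancel]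
    push_cast
    rw [sq]

/-- the pairs of terms which are near to each other -/
lemma pairs (n G : ℕ) (X : ℕ → ℝ) (T : ℝ)
    (hG : ∀ i j : ℕ, j < i → G < i → T < |X i - X j|) :
    (open Classical in (((Icc 1 n ×ˢ Icc 1 n).filter fun p : ℕ × ℕ =>
      |X p.1 - X p.2| ≤ T).card : ℝ)) ≤ n + (G : ℝ) ^ 2 := by
  classical
  have key : ∀ i j : ℕ, j < i → |X i - X j| ≤ T → i ≤ G := by
    intro i j hij hT
    by_contra hcon
    push Not at hcon
    exact absurd (hG i j hij hcon) (not_lt.2 hT)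
  have hsub : ((Icc 1 n ×ˢ Icc 1 n).filter fun p : ℕ × ℕ => |X p.1 - X p.2| ≤ T) ⊆
      ((Icc 1 n).image fun i => (i, i)) ∪ (Icc 1 G ×ˢ Icc 1 G) := by
    rintro ⟨i, j⟩ hp
    rw [mem_filter, mem_product, mem_Icc, mem_Icc] at hp
    obtain ⟨⟨⟨hi1, hi2⟩, hj1, hj2⟩, hT⟩ := hp
    simp only at hi1 hi2 hj1 hj2 hT
    rw [mem_union, mem_image, mem_product, mem_Icc, mem_Icc]
    rcases lt_trichotomy i j with hij | hij | hij
    · right
      rw [abs_sub_comm] at hT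
      have := key j i hij hT
      simp only
      omega
    · left
      exact ⟨i, mem_Icc.2 ⟨hi1, hi2⟩, by rw [hij]⟩
    · right
      have := key i j hij hT
      simp only
      omega
  have h1 := (card_le_card hsub).trans (card_union_le _ _)
  have h2 : ((Icc 1 n).image fun i => (i, i)).card ≤ n := by
    refine card_image_le.trans ?_
    rw [Nat.card_Icc, Nat.add_sub_cancel]
  rw [card_product, Nat.card_Icc, Nat.add_sub_cancel] at h1
  have h3 : (((((Icc 1 n ×ˢ Icc 1 n).filter fun p : ℕ × ℕ =>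
      |X p.1 - X p.2| ≤ T)).card : ℕ) : ℝ) ≤ ((n + G * G : ℕ) : ℝ) :=
    Nat.cast_le.2 (h1.trans (by omega))
  push_cast at h3
  rw [sq]
  exact h3

/-- the pairs with frequencies near to integers, for all prime denominators -/
theorem sum_Bd (n G H : ℕ) (X : ℕ → ℝ) (κ L : ℝ) (hκ : 0 < κ)
    (hG : ∀ i j : ℕ, j < i → G < i → κ * H < |X i - X j|)
    (hL : ∀ i ∈ Icc 1 n, ∀ j ∈ Icc 1 n, |X i - X j| + κ * H ≤ Real.exp L) (hL0 : 0 ≤ L) :
    ∑ q ∈ PH H, Real.log q * ((Bd n κ (fun i => X i / q)).card : ℝ) ≤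
      th H * (n + (G : ℝ) ^ 2) + (n : ℝ) ^ 2 * ((2 * (κ * H) + 1) * L) := by
  classical
  have hκH : 0 ≤ κ * H := by positivity
  have h1 : ∀ q ∈ PH H, ((Bd n κ (fun i => X i / q)).card : ℝ) ≤
      ∑ p ∈ Icc 1 n ×ˢ Icc 1 n,
        (if ∃ P : ℤ, |(X p.1 - X p.2) - q * P| ≤ κ * H then (1 : ℝ) else 0) := by
    intro q hq
    unfold PH at hq
    rw [mem_filter, mem_Icc] at hq
    have hq0 : (0 : ℝ) < q := by exact_mod_cast hq.2.pos
    have hqH : (q : ℝ) ≤ H := by exact_mod_cast hq.1.2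
    rw [← sum_filter, sum_const, nsmul_eq_mul, mul_one]
    refine Nat.cast_le.2 (card_le_card ?_)
    intro p hp
    unfold Bd at hp
    rw [mem_filter] at hp ⊢
    refine ⟨hp.1, ?_⟩
    obtain ⟨P, hP⟩ := hp.2
    refine ⟨P, ?_⟩
    have h2 : (X p.1 - X p.2) - q * P = q * (X p.1 / q - X p.2 / q - P) := by
      field_simp
    rw [h2, abs_mul, abs_of_pos hq0]
    calc (q : ℝ) * |X p.1 / q - X p.2 / q - P| ≤ H * κ :=
          mul_le_mul hqH hP (abs_nonneg _) (by positivity)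
      _ = κ * H := mul_comm _ _
  have h2 : ∑ q ∈ PH H, Real.log q * ((Bd n κ (fun i => X i / q)).card : ℝ) ≤
      ∑ p ∈ Icc 1 n ×ˢ Icc 1 n,
        ∑ q ∈ (PH H).filter (fun q : ℕ => ∃ P : ℤ, |(X p.1 - X p.2) - q * P| ≤ κ * H), Real.log q := by
    calc ∑ q ∈ PH H, Real.log q * ((Bd n κ (fun i => X i / q)).card : ℝ) ≤
          ∑ q ∈ PH H, Real.log q * ∑ p ∈ Icc 1 n ×ˢ Icc 1 n,
            (if ∃ P : ℤ, |(X p.1 - X p.2) - q * P| ≤ κ * H then (1 : ℝ) else 0) :=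
          sum_le_sum fun q hq => mul_le_mul_of_nonneg_left (h1 q hq) (Real.log_natCast_nonneg q)
      _ = ∑ q ∈ PH H, ∑ p ∈ Icc 1 n ×ˢ Icc 1 n,
            (if ∃ P : ℤ, |(X p.1 - X p.2) - q * P| ≤ κ * H then Real.log q else 0) := by
          refine sum_congr rfl fun q _ => ?_
          rw [mul_sum]
          refine sum_congr rfl fun p _ => ?_
          split_ifs <;> simp
      _ = _ := by
          rw [sum_comm]
          refine sum_congr rfl fun p _ => ?_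
          rw [sum_filter]
  refine h2.trans ?_
  have h3 : ∀ p ∈ Icc 1 n ×ˢ Icc 1 n,
      ∑ q ∈ (PH H).filter (fun q : ℕ => ∃ P : ℤ, |(X p.1 - X p.2) - q * P| ≤ κ * H), Real.log q ≤
        (if |X p.1 - X p.2| ≤ κ * H then th H else 0) + (2 * (κ * H) + 1) * L := by
    intro p hp
    rw [mem_product] at hp
    have hpos : 0 ≤ (2 * (κ * H) + 1) * L := by positivity
    split_ifs with hc
    · have h4 : ∑ q ∈ (PH H).filter (fun q : ℕ => ∃ P : ℤ, |(X p.1 - X p.2) - q * P| ≤ κ * H),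
          Real.log q ≤ th H :=
        sum_le_sum_of_subset_of_nonneg (filter_subset _ _) fun q _ _ => Real.log_natCast_nonneg q
      linarith
    · rw [zero_add]
      exact wcount H (X p.1 - X p.2) (κ * H) L hκH (not_le.1 hc) (hL _ hp.1 _ hp.2) hL0
  refine (sum_le_sum h3).trans ?_
  rw [sum_add_distrib, ← sum_filter, sum_const, sum_const, nsmul_eq_mul, nsmul_eq_mul, card_product,
    Nat.card_Icc, Nat.add_sub_cancel]
  apply add_le_add
  · rw [mul_comm]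
    exact mul_le_mul_of_nonneg_left (pairs n G X (κ * H) hG) (th_nonneg H)
  · push_cast
    rw [sq]

/-- the second moment over denominators and numerators -/
theorem mom_all (n G H M : ℕ) (X : ℕ → ℝ) (κ L : ℝ) (hκ : 0 < κ)
    (hG : ∀ i j : ℕ, j < i → G < i → κ * H < |X i - X j|)
    (hL : ∀ i ∈ Icc 1 n, ∀ j ∈ Icc 1 n, |X i - X j| + κ * H ≤ Real.exp L) (hL0 : 0 ≤ L)
    (Y : ℕ → ℕ → ℝ) (J : ℕ → ℤ) :
    ∑ q ∈ PH H, Real.log q * ∑ m ∈ range M,
      ‖∑ i ∈ Icc 1 n, e (Y q i + (J q + m) * (X i / q))‖ ^ 2 ≤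
      M * (th H * (n + (G : ℝ) ^ 2) + (n : ℝ) ^ 2 * ((2 * (κ * H) + 1) * L)) +
        th H * ((n : ℝ) ^ 2 * (2 / κ)) := by
  have h1 := sum_Bd n G H X κ L hκ hG hL hL0
  calc _ ≤ ∑ q ∈ PH H, Real.log q * (M * ((Bd n κ (fun i => X i / q)).card : ℝ) +
        (n : ℝ) ^ 2 * (2 / κ)) :=
        sum_le_sum fun q _ => mul_le_mul_of_nonneg_left
          (mom2 n κ hκ (Y q) (fun i => X i / q) (J q) M) (Real.log_natCast_nonneg q)
    _ = M * (∑ q ∈ PH H, Real.log q * ((Bd n κ (fun i => X i / q)).card : ℝ)) +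
        th H * ((n : ℝ) ^ 2 * (2 / κ)) := by
        unfold th
        rw [mul_sum, sum_mul, ← sum_add_distrib]
        exact sum_congr rfl fun q _ => by ring
    _ ≤ _ := by
        gcongr

end Pool.Agent.K9h10.RG
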