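import Pool.Agent.K9h10.RG.Scale
import Pool.Agent.K9h10.RG.Grow

/-!
# One scale, with the parameters chosen, for tuples in several bases
-/

set_option autoImplicit false

namespace Pool.Agent.K9h10.RG

open Finset Filter Topology
open Pool.Agent.K9h10.RP (PH th th_nonneg)

/-- the differences, sorted by the bases -/
lemma diff_eq {r : ℕ} (b x : Fin r → ℝ) (h : Fin r → ℤ) (i j : ℕ) :
    ∑ k, h k * (x k * b k ^ i) - ∑ k, h k * (x k * b k ^ j) =
      ∑ γ ∈ univ.image b, (∑ k ∈ univ.filter (fun k => b k = γ), h k * x k) * (γ ^ i - γ ^ j) := by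
  classical
  rw [← sum_sub_distrib]
  rw [← sum_fiberwise_of_maps_to (s := univ) (t := univ.image b) (g := b)
    (fun k _ => mem_image_of_mem b (mem_univ k))
    (fun k => (h k : ℝ) * (x k * b k ^ i) - h k * (x k * b k ^ j))]
  refine sum_congr rfl fun γ _ => ?_
  rw [sum_mul]
  refine sum_congr rfl fun k hk => ?_
  rw [(mem_filter.1 hk).2]
  ring

/-- the lower bound for the differences, for finitely many frequencies -/
lemma grow_all {r : ℕ} (b : Fin r → ℝ) (hb : ∀ k, 1 < b k) (ρ : ℝ) (hρ1 : 1 < ρ) (hρ : ∀ k, ρ ≤ b k)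
    (x : Fin r → ℝ) (hx : ∀ h : Fin r → ℤ, h ≠ 0 →
      ∃ γ : ℝ, ∑ k ∈ univ.filter (fun k => b k = γ), h k * x k ≠ 0) (K : ℕ) :
    ∃ x₀ : ℝ, 0 < x₀ ∧ ∃ i₁ : ℕ, ∀ h ∈ HH r K, ∀ i j : ℕ, i₁ ≤ i → j < i →
      x₀ * ρ ^ i ≤ |∑ k, h k * (x k * b k ^ i) - ∑ k, h k * (x k * b k ^ j)| := by
  classical
  have h1 : ∀ h : Fin r → ℤ, ∃ x₀ : ℝ, 0 < x₀ ∧ ∃ i₁ : ℕ, h ∈ HH r K → ∀ i j : ℕ, i₁ ≤ i → j < i →
      x₀ * ρ ^ i ≤ |∑ k, h k * (x k * b k ^ i) - ∑ k, h k * (x k * b k ^ j)| := by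
    intro h
    by_cases hh : h ∈ HH r K
    · obtain ⟨γ, hγ⟩ := hx h (mem_HH.1 hh).1
      have hγT : γ ∈ univ.image b := by
        by_contra hcon
        apply hγ
        rw [filter_eq_empty_iff.2, sum_empty]
        intro k _ hk
        exact hcon (hk ▸ mem_image_of_mem b (mem_univ k))
      obtain ⟨x₀, hx₀, i₁, hi₁⟩ := growth (univ.image b)
        (fun γ => ∑ k ∈ univ.filter (fun k => b k = γ), h k * x k)
        (fun β hβ => by
          obtain ⟨k, _, rfl⟩ := mem_image.1 hβ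
          exact hb k) ⟨γ, hγT, hγ⟩ ρ hρ1
        (fun β hβ => by
          obtain ⟨k, _, rfl⟩ := mem_image.1 hβ
          exact hρ k)
      refine ⟨x₀, hx₀, i₁, fun _ i j hi hj => ?_⟩
      rw [diff_eq]
      exact hi₁ i j hi hj
    · exact ⟨1, one_pos, 0, fun h => absurd h hh⟩
  choose f hf0 g hg using h1
  rcases (HH r K).eq_empty_or_nonempty with h0 | h0
  · exact ⟨1, one_pos, 0, fun h hh => by rw [h0] at hh; exact absurd hh (notMem_empty _)⟩
  · obtain ⟨h1, hh1, hm1⟩ := exists_min_image (HH r K) f h0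
    refine ⟨f h1, hf0 h1, (HH r K).sup g, fun h hh i j hi hj => ?_⟩
    refine le_trans ?_ (hg h hh i j ((le_sup hh).trans hi) hj)
    exact mul_le_mul_of_nonneg_right (hm1 h hh) (by positivity)

/-- the upper bound for the differences -/
lemma upper {r : ℕ} (b : Fin r → ℝ) (hb : ∀ k, 1 < b k) (Bm : ℝ) (hB1 : 1 ≤ Bm) (hB : ∀ k, b k ≤ Bm)
    (x : Fin r → ℝ) (K N : ℕ) (h : Fin r → ℤ) (hh : h ∈ HH r K) (i j : ℕ) (hi : i ≤ N) (hj : j ≤ N) :
    |∑ k, h k * (x k * b k ^ i) - ∑ k, h k * (x k * b k ^ j)| ≤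
      2 * ((K : ℝ) ^ 3 * ∑ k, |x k|) * Bm ^ N := by
  have key : ∀ i : ℕ, i ≤ N → |∑ k, (h k : ℝ) * (x k * b k ^ i)| ≤ (K : ℝ) ^ 3 * (∑ k, |x k|) * Bm ^ N := by
    intro i hi
    refine (abs_sum_le_sum_abs _ _).trans ?_
    rw [mul_sum, sum_mul]
    refine sum_le_sum fun k _ => ?_
    rw [abs_mul, abs_mul, ← mul_assoc]
    have h1 : |(h k : ℝ)| ≤ (K : ℝ) ^ 3 := by
      have := (mem_HH.1 hh).2 k
      exact_mod_cast this
    have h2 : |b k ^ i| ≤ Bm ^ N := by
      rw [abs_of_nonneg (pow_nonneg (by linarith [hb k]) i)]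
      exact (pow_le_pow_left₀ (by linarith [hb k]) (hB k) i).trans (pow_le_pow_right₀ hB1 hi)
    gcongr
  have h1 := key i hi
  have h2 := key j hj
  have h3 := abs_sub (∑ k, (h k : ℝ) * (x k * b k ^ i)) (∑ k, (h k : ℝ) * (x k * b k ^ j))
  linarith

/-- **one scale, with the parameters chosen** -/
theorem one_scale (r : ℕ) (b : Fin r → ℝ) (hb : ∀ k, 1 < b k) (η : ℝ) (hη : 0 < η) :
    ∃ C β : ℝ, 0 ≤ C ∧ 0 ≤ β ∧
    ∀ x : Fin r → ℝ, (∀ h : Fin r → ℤ, h ≠ 0 →
      ∃ γ : ℝ, ∑ k ∈ univ.filter (fun k => b k = γ), h k * x k ≠ 0) → ∃ N₀ : ℕ,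
    ∀ d N M H : ℕ, 1 ≤ d → N₀ ≤ N → N ≤ M → M ≤ H →
      Real.log ((d : ℝ) * H / M) ≤ N / 2 → (H : ℝ) / 2 ≤ th H →
      ∀ (y : ℕ → Fin r → ℝ) (J : ℕ → ℤ),
      ∑ q ∈ PH H, Real.log q * ((BdN b N M η (fun k => x k / d) y J q).card : ℝ) ≤
        C * (M * th H * (4 / N + 8 * (Real.log ((d : ℝ) * H / M) / N) ^ 2 +
          β * Real.sqrt ((N : ℝ) / M))) := by
  classical
  obtain ⟨K, R, C, hK, hC, hscale⟩ := scale r η hη
  obtain ⟨ρ, hρ1, hρ⟩ : ∃ ρ : ℝ, 1 < ρ ∧ ∀ k, ρ ≤ b k := by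
    rcases isEmpty_or_nonempty (Fin r) with h0 | h0
    · exact ⟨2, by norm_num, fun k => (IsEmpty.false k).elim⟩
    · obtain ⟨k0, _, hk0⟩ := exists_min_image univ b univ_nonempty
      exact ⟨b k0, hb k0, fun k => hk0 k (mem_univ k)⟩
  obtain ⟨Bm, hB1, hBm⟩ : ∃ Bm : ℝ, 1 ≤ Bm ∧ ∀ k, b k ≤ Bm := by
    refine ⟨1 + ∑ k, b k, ?_, fun k => ?_⟩
    · have : 0 ≤ ∑ k, b k := sum_nonneg fun k _ => by linarith [hb k]
      linarith
    · have := single_le_sum (f := b) (fun k _ => by linarith [hb k]) (mem_univ k)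
      linarith
  have hlρ : 0 < Real.log ρ := Real.log_pos hρ1
  set lam : ℝ := 1 / Real.log ρ with hlam
  have hlam0 : 0 < lam := by positivity
  have hlB : 0 ≤ Real.log Bm := Real.log_nonneg hB1
  refine ⟨C * (1 + lam ^ 2 / 4), 6 * (Real.log Bm + 1) + 2, by positivity, by positivity,
    fun x hx => ?_⟩
  obtain ⟨x₀, hx0, i₁, hgrow⟩ := grow_all b hb ρ hρ1 hρ x hx K
  set x₁ : ℝ := 2 * ((K : ℝ) ^ 3 * ∑ k, |x k|) with hx₁
  have hx1 : 0 ≤ x₁ := by
    have : 0 ≤ ∑ k, |x k| := sum_nonneg fun k _ => abs_nonneg _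
    positivity
  set g' : ℝ := Real.log (1 / x₀ + 1) with hg'
  have hg'0 : 0 ≤ g' := Real.log_nonneg (by
      have : 0 < 1 / x₀ := by positivity
      linarith)
  set g : ℝ := lam * g' + 1 + i₁ with hg
  have hg0 : 0 ≤ g := by positivity
  have ev1 : ∀ᶠ N : ℕ in atTop, 2 * (lam * Real.log N + g) ^ 2 ≤ N := by
    have h1 : ∀ᶠ t : ℝ in atTop, ‖Real.log t ^ 2‖ ≤ (1 / (2 * (lam + g) ^ 2)) * ‖t‖ :=
      (Real.isLittleO_pow_log_id_atTop (n := 2)).def (by positivity)
    have h2 : ∀ᶠ t : ℝ in atTop, 1 ≤ Real.log t := Real.tendsto_log_atTop.eventually_ge_atTop 1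
    filter_upwards [tendsto_natCast_atTop_atTop.eventually h1,
      tendsto_natCast_atTop_atTop.eventually h2] with N hN1 hN2
    rw [Real.norm_of_nonneg (by positivity), Real.norm_of_nonneg (by positivity)] at hN1
    have h3 : lam * Real.log N + g ≤ (lam + g) * Real.log N := by nlinarith
    calc 2 * (lam * Real.log N + g) ^ 2 ≤ 2 * ((lam + g) * Real.log N) ^ 2 := by
          have : 0 ≤ lam * Real.log N + g := by positivity
          gcongr
      _ = 2 * (lam + g) ^ 2 * Real.log N ^ 2 := by ring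
      _ ≤ 2 * (lam + g) ^ 2 * (1 / (2 * (lam + g) ^ 2) * N) := by gcongr
      _ = N := by
          have : lam + g ≠ 0 := by positivity
          field_simp
  have ev2 : ∀ᶠ N : ℕ in atTop, x₁ ≤ Real.exp N / 2 := by
    have h1 : ∀ᶠ t : ℝ in atTop, 2 * x₁ ≤ Real.exp t :=
      Real.tendsto_exp_atTop.eventually_ge_atTop _
    filter_upwards [tendsto_natCast_atTop_atTop.eventually h1] with N hN
    linarith
  obtain ⟨N₀, hN₀⟩ := eventually_atTop.1 (ev1.and (ev2.and ((eventually_ge_atTop R).and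
    (eventually_ge_atTop 16))))
  refine ⟨N₀, fun d N M H hd hN hNM hMH hD hth y J => ?_⟩
  obtain ⟨e1, e2, e3, e4⟩ := hN₀ N hN
  have hN1 : (16 : ℝ) ≤ N := by exact_mod_cast e4
  have hN0 : (0 : ℝ) < N := by linarith
  have hM1 : (N : ℝ) ≤ M := by exact_mod_cast hNM
  have hM0 : (0 : ℝ) < M := by linarith
  have hH1 : (M : ℝ) ≤ H := by exact_mod_cast hMH
  have hH0 : (0 : ℝ) < H := by linarith
  set D : ℝ := (H : ℝ) / M with hDdef
  have hD1 : 1 ≤ D := by
    rw [hDdef, le_div_iff₀ hM0]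
    linarith
  have hdR : (1 : ℝ) ≤ d := by exact_mod_cast hd
  have hd0 : (0 : ℝ) < d := by linarith
  have hdD : (d : ℝ) * H / M = d * D := by
    rw [hDdef]
    ring
  have hDdD : D ≤ d * D := by nlinarith
  rw [hdD] at hD ⊢
  set ld : ℝ := Real.log (d * D) with hld
  have hld0 : 0 ≤ ld := Real.log_nonneg (hD1.trans hDdD)
  have hexpld : Real.exp ld = d * D := Real.exp_log (by positivity)
  have hlN : 0 ≤ Real.log N := Real.log_natCast_nonneg N
  set s : ℝ := Real.sqrt ((N : ℝ) / M) with hs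
  set u : ℝ := Real.sqrt ((M : ℝ) / N) with hu
  have hs0 : 0 < s := Real.sqrt_pos.2 (by positivity)
  have hu0 : 0 < u := Real.sqrt_pos.2 (by positivity)
  have hs2 : s ^ 2 = N / M := Real.sq_sqrt (by positivity)
  have hsu : s * u = 1 := by
    rw [hs, hu, ← Real.sqrt_mul (by positivity)]
    have : (N : ℝ) / M * (M / N) = 1 := by field_simp
    rw [this, Real.sqrt_one]
  have hu1 : 1 ≤ u := by
    rw [hu]
    apply Real.le_sqrt_of_sq_le
    rw [one_pow, le_div_iff₀ hN0]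
    linarith
  have huN : u * N = s * M := by
    have h1 : (N : ℝ) = s ^ 2 * M := by
      rw [hs2]
      field_simp
    calc u * N = u * (s ^ 2 * M) := by rw [← h1]
      _ = (s * u) * (s * M) := by ring
      _ = s * M := by rw [hsu, one_mul]
  set T : ℝ := min u N with hT
  have hT1 : 1 ≤ T := le_min hu1 (by linarith)
  have hT0 : 0 < T := by linarith
  have hTu : T ≤ u := min_le_left _ _
  have hTN : T ≤ N := min_le_right _ _
  have hTinv : 2 / T ≤ 2 / N + 2 * s := by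
    have hs1 : s = 1 / u := by
      field_simp
      exact hsu
    rcases min_choice u (N : ℝ) with h | h
    · rw [hT, h, hs1]
      have : 0 ≤ 2 / (N : ℝ) := by positivity
      have h2 : 2 / u = 2 * (1 / u) := by ring
      linarith
    · rw [hT, h]
      linarith
  set G : ℕ := ⌈lam * (Real.log N + ld + g')⌉₊ + i₁ with hG
  have hG1 : lam * (Real.log N + ld + g') ≤ G := by
    have := Nat.le_ceil (lam * (Real.log N + ld + g'))
    rw [hG]
    push_cast
    have h0 : (0 : ℝ) ≤ i₁ := Nat.cast_nonneg _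
    linarith
  have hG2 : (G : ℝ) ≤ lam * ld + (lam * Real.log N + g) := by
    have := (Nat.ceil_lt_add_one (a := lam * (Real.log N + ld + g')) (by positivity)).le
    rw [hG]
    push_cast
    rw [hg]
    linarith
  have hGi : i₁ ≤ G := by rw [hG]; exact Nat.le_add_left _ _
  have hpow : N * (d * D) * (1 / x₀ + 1) ≤ ρ ^ G := by
    have h1 : ρ ^ G = Real.exp (G * Real.log ρ) := by
      rw [mul_comm, Real.exp_mul, Real.exp_log (by linarith), Real.rpow_natCast]
    have h2 : Real.log N + ld + Real.log (1 / x₀ + 1) ≤ G * Real.log ρ := by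
      have h3 : lam * (Real.log N + ld + g') * Real.log ρ ≤ G * Real.log ρ :=
        mul_le_mul_of_nonneg_right hG1 hlρ.le
      have h4 : lam * (Real.log N + ld + g') * Real.log ρ = Real.log N + ld + g' := by
        rw [hlam]
        field_simp
      rw [h4] at h3
      exact h3
    rw [h1]
    refine le_trans (le_of_eq ?_) (Real.exp_le_exp.2 h2)
    rw [Real.exp_add, Real.exp_add, hexpld, Real.exp_log hN0, Real.exp_log (by positivity)]
  have hκH : T / M * H = T * D := by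
    rw [hDdef]
    ring
  have hdiv : ∀ h : Fin r → ℤ, ∀ i j : ℕ,
      ∑ k, (h k : ℝ) * (x k / d * b k ^ i) - ∑ k, (h k : ℝ) * (x k / d * b k ^ j) =
        (∑ k, (h k : ℝ) * (x k * b k ^ i) - ∑ k, (h k : ℝ) * (x k * b k ^ j)) / d := by
    intro h i j
    rw [sub_div, sum_div, sum_div]
    congr 1
    · exact sum_congr rfl fun k _ => by ring
    · exact sum_congr rfl fun k _ => by ring
  have hGx : ∀ h ∈ HH r K, ∀ i j : ℕ, j < i → G < i →
      T / M * H < |∑ k, h k * (x k / d * b k ^ i) - ∑ k, h k * (x k / d * b k ^ j)| := by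
    intro h hh i j hji hGi'
    have h0 := hgrow h hh i j (hGi.trans hGi'.le) hji
    rw [hκH, hdiv, abs_div, abs_of_pos hd0, lt_div_iff₀ hd0]
    have h1 : x₀ * (N * (d * D) * (1 / x₀ + 1)) = N * (d * D) * (1 + x₀) := by
      field_simp
    have h2 : x₀ * (N * (d * D) * (1 / x₀ + 1)) ≤ x₀ * ρ ^ G :=
      mul_le_mul_of_nonneg_left hpow hx0.le
    have h2' : x₀ * ρ ^ G ≤ x₀ * ρ ^ i :=
      mul_le_mul_of_nonneg_left (pow_le_pow_right₀ hρ1.le hGi'.le) hx0.le
    have h3 : T * (d * D) ≤ N * (d * D) := mul_le_mul_of_nonneg_right hTN (by positivity)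
    have h4 : 0 < N * (d * D) * x₀ := by positivity
    have h5 : T * D * d = T * (d * D) := by ring
    rw [h5]
    nlinarith
  have hexpN : Real.exp (N * (Real.log Bm + 1)) = Bm ^ N * Real.exp N := by
    rw [mul_add, mul_one, Real.exp_add]
    congr 1
    rw [mul_comm, Real.exp_mul, Real.exp_log (by linarith), Real.rpow_natCast]
  have hL : x₁ * Bm ^ N + T / M * H ≤ Real.exp (N * (Real.log Bm + 1)) := by
    rw [hexpN, hκH]
    have h1 : (1 : ℝ) ≤ Bm ^ N := one_le_pow₀ hB1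
    have h2 : x₁ * Bm ^ N ≤ Bm ^ N * (Real.exp N / 2) := by
      calc x₁ * Bm ^ N = Bm ^ N * x₁ := by ring
        _ ≤ Bm ^ N * (Real.exp N / 2) := by gcongr
    have h3 : T * D ≤ Real.exp N / 2 := by
      have h4 : D ≤ Real.exp (N / 2) := by
        refine hDdD.trans ?_
        rw [← hexpld]
        exact Real.exp_le_exp.2 hD
      have h5 : Real.exp N = Real.exp (N / 2) * Real.exp (N / 2) := by
        rw [← Real.exp_add]
        congr 1
        ring
      have h6 := Real.quadratic_le_exp_of_nonneg (x := (N : ℝ) / 2) (by positivity)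
      have h7 : (N : ℝ) ≤ Real.exp (N / 2) / 2 := by nlinarith
      rw [h5]
      have h8 : T * D ≤ Real.exp (N / 2) / 2 * Real.exp (N / 2) :=
        mul_le_mul (hTN.trans h7) h4 (by linarith) (by positivity)
      linarith
    have h4 : Real.exp N / 2 ≤ Bm ^ N * (Real.exp N / 2) := by
      have : 0 < Real.exp N / 2 := by positivity
      nlinarith
    linarith
  have hLx : ∀ h ∈ HH r K, ∀ i ∈ Icc 1 N, ∀ j ∈ Icc 1 N,
      |∑ k, h k * (x k / d * b k ^ i) - ∑ k, h k * (x k / d * b k ^ j)| + T / M * H ≤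
        Real.exp (N * (Real.log Bm + 1)) := by
    intro h hh i hi j hj
    have h0 := upper b hb Bm hB1 hBm x K N h hh i j (mem_Icc.1 hi).2 (mem_Icc.1 hj).2
    have h1 : |∑ k, (h k : ℝ) * (x k / d * b k ^ i) - ∑ k, (h k : ℝ) * (x k / d * b k ^ j)| ≤
        x₁ * Bm ^ N := by
      rw [hdiv, abs_div, abs_of_pos hd0, div_le_iff₀ hd0]
      have h2 : 0 ≤ x₁ * Bm ^ N := by positivity
      nlinarith
    linarith
  have hmain := hscale b N M H G (fun k => x k / d) (T / M) (N * (Real.log Bm + 1)) y J e3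
    (by omega) (by positivity) hGx hLx (by positivity)
  refine hmain.trans ?_
  rw [mul_assoc C]
  apply mul_le_mul_of_nonneg_left _ hC
  have hth0 : 0 ≤ th H := th_nonneg H
  have b1 : 1 / (N : ℝ) + ((G : ℝ) / N) ^ 2 ≤ (1 + lam ^ 2 / 4) * (2 / N + 8 * (ld / N) ^ 2) := by
    have h1 : (G : ℝ) ^ 2 ≤ 2 * (lam * Real.log N + g) ^ 2 + 2 * (lam * ld) ^ 2 := by
      have h2 : (G : ℝ) ^ 2 ≤ (lam * ld + (lam * Real.log N + g)) ^ 2 :=
        pow_le_pow_left₀ (Nat.cast_nonneg _) hG2 2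
      nlinarith [sq_nonneg ((lam * Real.log N + g) - lam * ld)]
    have h3 : (G : ℝ) ^ 2 ≤ N + 2 * (lam * ld) ^ 2 := by linarith
    have h4 : ((G : ℝ) / N) ^ 2 ≤ 1 / N + 2 * lam ^ 2 * (ld / N) ^ 2 := by
      have h5 : 1 / (N : ℝ) + 2 * lam ^ 2 * (ld / N) ^ 2 = (N + 2 * (lam * ld) ^ 2) / N ^ 2 := by
        field_simp
      rw [h5, div_pow]
      gcongr
    have h5 : (1 + lam ^ 2 / 4) * (2 / (N : ℝ) + 8 * (ld / N) ^ 2) =
        2 / N + 2 * lam ^ 2 * (ld / N) ^ 2 + (8 * (ld / N) ^ 2 + lam ^ 2 / 4 * (2 / N)) := by ring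
    have h6 : 0 ≤ 8 * (ld / N) ^ 2 + lam ^ 2 / 4 * (2 / (N : ℝ)) := by positivity
    have h7 : 2 / (N : ℝ) = 1 / N + 1 / N := by ring
    rw [h5]
    linarith
  have b2 : (2 * (T / M * H) + 1) * (N * (Real.log Bm + 1)) ≤ th H * (6 * (Real.log Bm + 1) * s) := by
    rw [hκH]
    have h1 : 1 ≤ T * D := by nlinarith
    have h2 : D * M ≤ 2 * th H := by
      have : D * M = H := by
        rw [hDdef]
        field_simp
      linarith
    have h3 : T * N ≤ s * M := by
      rw [← huN]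
      exact mul_le_mul_of_nonneg_right hTu hN0.le
    calc (2 * (T * D) + 1) * (N * (Real.log Bm + 1)) ≤ (3 * (T * D)) * (N * (Real.log Bm + 1)) := by
          apply mul_le_mul_of_nonneg_right _ (by positivity)
          linarith
      _ = 3 * (Real.log Bm + 1) * D * (T * N) := by ring
      _ ≤ 3 * (Real.log Bm + 1) * D * (s * M) := by
          apply mul_le_mul_of_nonneg_left h3 (by positivity)
      _ = 3 * (Real.log Bm + 1) * s * (D * M) := by ring
      _ ≤ 3 * (Real.log Bm + 1) * s * (2 * th H) := by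
          apply mul_le_mul_of_nonneg_left h2 (by positivity)
      _ = th H * (6 * (Real.log Bm + 1) * s) := by ring
  have b3 : 2 / (T / M) ≤ M * (2 / N + 2 * s) := by
    have h1 : 2 / (T / M) = M * (2 / T) := by field_simp
    rw [h1]
    exact mul_le_mul_of_nonneg_left hTinv hM0.le
  have b4 : 0 ≤ lam ^ 2 / 4 * (M * th H * (2 / N + (6 * (Real.log Bm + 1) + 2) * s)) := by
    positivity
  calc M * (th H * (1 / N + ((G : ℝ) / N) ^ 2) + (2 * (T / M * H) + 1) * (N * (Real.log Bm + 1))) +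
        th H * (2 / (T / M)) ≤
      M * (th H * ((1 + lam ^ 2 / 4) * (2 / N + 8 * (ld / N) ^ 2)) +
        th H * (6 * (Real.log Bm + 1) * s)) + th H * (M * (2 / N + 2 * s)) := by
        gcongr
    _ = (1 + lam ^ 2 / 4) * (M * th H * (4 / N + 8 * (ld / N) ^ 2 + (6 * (Real.log Bm + 1) + 2) * s)) -
        lam ^ 2 / 4 * (M * th H * (2 / N + (6 * (Real.log Bm + 1) + 2) * s)) := by ring
    _ ≤ (1 + lam ^ 2 / 4) *
        (M * th H * (4 / N + 8 * (ld / N) ^ 2 + (6 * (Real.log Bm + 1) + 2) * s)) := by linarith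

end Pool.Agent.K9h10.RG
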