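import Pool.Agent.K9h10.RG.Mom
import Pool.Agent.R485.TransS.Box

/-!
# One scale, for tuples in several bases
-/

set_option autoImplicit false

namespace Pool.Agent.K9h10.RG

open Finset Filter Topology
open Pool.Agent.H469R2.NK (e norm_e e_add e_zero conj_e)
open Pool.Agent.K9h10.RP (PH th th_nonneg)

/-- the first `n` digits of the tuple `z` in the bases `b` are jointly equidistributed up to `E` -/
def Dev {r : ℕ} (b : Fin r → ℝ) (n : ℕ) (E : ℝ) (z : Fin r → ℝ) : Prop :=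
  ∀ u v : Fin r → ℝ, (∀ l, 0 ≤ u l ∧ u l < v l ∧ v l ≤ 1) →
    |(((Icc 1 n).filter (fun i : ℕ => ∀ l, u l ≤ Int.fract (z l * b l ^ i) ∧
      Int.fract (z l * b l ^ i) < v l)).card : ℝ) - (∏ l, (v l - u l)) * n| ≤ E

/-- longer initial segments -/
lemma Dev_mono {r : ℕ} (b : Fin r → ℝ) (n s : ℕ) (E : ℝ) (z : Fin r → ℝ) (h : Dev b n E z) :
    Dev b (n + s) (E + s) z := by
  classical
  intro u v huv
  have h3 := h u v huv
  set P : ℕ → Prop := fun i => ∀ l, u l ≤ Int.fract (z l * b l ^ i) ∧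
    Int.fract (z l * b l ^ i) < v l with hP
  have e1 : (Icc 1 (n + s)).filter P = (Icc 1 n).filter P ∪ (Icc (n + 1) (n + s)).filter P := by
    rw [← filter_union]
    congr 1
    ext i
    simp only [mem_union, mem_Icc]
    omega
  have e2 : ((Icc 1 (n + s)).filter P).card = ((Icc 1 n).filter P).card +
      ((Icc (n + 1) (n + s)).filter P).card := by
    rw [e1, card_union_of_disjoint]
    rw [disjoint_left]
    intro i hi hi'
    rw [mem_filter, mem_Icc] at hi hi'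
    omega
  have h4 : (((Icc (n + 1) (n + s)).filter P).card : ℝ) ≤ s := by
    have := card_filter_le (Icc (n + 1) (n + s)) P
    rw [Nat.card_Icc] at this
    have h5 : n + s + 1 - (n + 1) = s := by omega
    rw [h5] at this
    exact_mod_cast this
  have h5 : (0 : ℝ) ≤ (((Icc (n + 1) (n + s)).filter P).card : ℝ) := Nat.cast_nonneg _
  rw [e2]
  have h6 : (0 : ℝ) ≤ s := Nat.cast_nonneg _
  have hp0 : 0 ≤ ∏ l, (v l - u l) := prod_nonneg fun l _ => by linarith [(huv l).2.1]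
  have hp1 : ∏ l, (v l - u l) ≤ 1 :=
    prod_le_one (fun l _ => by linarith [(huv l).2.1]) fun l _ => by
      linarith [(huv l).1, (huv l).2.2]
  rw [abs_le] at h3 ⊢
  push_cast
  constructor <;> nlinarith [h3.1, h3.2]

/-- the parameters -/
lemma params (r : ℕ) (η : ℝ) (hη : 0 < η) : ∃ (K R : ℕ) (τ : ℝ), 1 ≤ K ∧ 1 ≤ R ∧ 0 < τ ∧
    ((2 * (K : ℝ) ^ 3 + 1) ^ r * τ + r * (12 / K + 5 * τ)) + 2 / R ≤ η := by
  obtain ⟨K, hK⟩ := exists_nat_gt (48 * (r + 1) / η)
  obtain ⟨R, hR⟩ := exists_nat_gt (8 / η)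
  have hK0 : (0 : ℝ) < K := lt_of_le_of_lt (by positivity) hK
  have hR0 : (0 : ℝ) < R := lt_of_le_of_lt (by positivity) hR
  have hK1 : 1 ≤ K := by exact_mod_cast hK0
  have hR1 : 1 ≤ R := by exact_mod_cast hR0
  set Q : ℝ := (2 * (K : ℝ) ^ 3 + 1) ^ r + 5 * r with hQ
  have hQ0 : 0 < Q := by positivity
  refine ⟨K, R, η / (4 * Q), hK1, hR1, by positivity, ?_⟩
  have h1 : Q * (η / (4 * Q)) = η / 4 := by
    field_simp
  have h2 : r * (12 / (K : ℝ)) ≤ η / 4 := by
    rw [← mul_div_assoc, div_le_iff₀ hK0]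
    rw [div_lt_iff₀ hη] at hK
    nlinarith
  have h3 : 2 / (R : ℝ) ≤ η / 4 := by
    rw [div_le_iff₀ hR0]
    rw [div_lt_iff₀ hη] at hR
    linarith
  have h4 : ((2 * (K : ℝ) ^ 3 + 1) ^ r * (η / (4 * Q)) + r * (12 / K + 5 * (η / (4 * Q)))) + 2 / R =
      Q * (η / (4 * Q)) + r * (12 / K) + 2 / R := by
    rw [hQ]
    ring
  rw [h4, h1]
  linarith

/-- the frequencies -/
noncomputable def HH (r K : ℕ) : Finset (Fin r → ℤ) :=
  (Fintype.piFinset fun _ : Fin r => Icc (-((K : ℤ) ^ 3)) ((K : ℤ) ^ 3)).filter (· ≠ 0)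

lemma mem_HH {r K : ℕ} {h : Fin r → ℤ} : h ∈ HH r K ↔ h ≠ 0 ∧ ∀ i, |h i| ≤ (K : ℤ) ^ 3 := by
  unfold HH
  rw [mem_filter, Fintype.mem_piFinset, and_comm]
  simp only [mem_Icc, abs_le]

/-- small exponential sums -/
lemma Dev_of {r : ℕ} (b : Fin r → ℝ) (N K R : ℕ) (τ η : ℝ) (z : Fin r → ℝ) (hK : 1 ≤ K) (hR : 1 ≤ R) (hτ : 0 < τ)
    (hRN : R ≤ N)
    (hp : ((2 * (K : ℝ) ^ 3 + 1) ^ r * τ + r * (12 / K + 5 * τ)) + 2 / R ≤ η)
    (h : ∀ l : ℕ, l ≤ R → ∀ h ∈ HH r K, l * (N / R + 1) ≤ N →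
      ‖∑ i ∈ Icc 1 (l * (N / R + 1)), e (∑ k, h k * (z k * b k ^ i))‖ ≤ τ * N) :
    ∀ n : ℕ, n ≤ N → Dev b n (η * N) z := by
  classical
  intro n hn
  set s : ℕ := N / R + 1 with hs
  have hNR : (0 : ℝ) < N := by exact_mod_cast (by omega : 0 < N)
  have hRR : (0 : ℝ) < R := by exact_mod_cast hR
  have hKR : (0 : ℝ) < K := by exact_mod_cast hK
  have h1 : n / s * s + n % s = n := by
    rw [mul_comm]
    exact Nat.div_add_mod n s
  have h2 : n / s ≤ R := by
    have h3 : N < s * R := by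
      rw [hs, add_mul, one_mul]
      have := Nat.div_add_mod N R
      have h4 := Nat.mod_lt N (by omega : R > 0)
      rw [mul_comm] at this
      omega
    have h4 : n / s < R := by
      rw [Nat.div_lt_iff_lt_mul (Nat.succ_pos _), mul_comm]
      exact lt_of_le_of_lt hn h3
    exact h4.le
  have h3 : n / s * s ≤ N := (Nat.div_mul_le_self n s).trans hn
  set m : ℕ := n / s * s with hm
  have hmN : (m : ℝ) ≤ N := Nat.cast_le.2 h3
  set Q : ℝ := (2 * (K : ℝ) ^ 3 + 1) ^ r * τ + r * (12 / K + 5 * τ) with hQ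
  have hQ0 : 0 ≤ Q := by positivity
  have h4 : Dev b m (Q * N) z := by
    intro u v huv
    rcases Nat.eq_zero_or_pos m with h0 | h0
    · rw [h0]
      simp only [Order.lt_one_iff, Icc_eq_empty_of_lt, filter_empty, card_empty,
        Nat.cast_zero, mul_zero, sub_zero, abs_zero]
      positivity
    · have hm0 : (0 : ℝ) < m := by exact_mod_cast h0
      have hne : (Icc 1 m).Nonempty := nonempty_Icc.2 h0
      have hcard : (Icc 1 m).card = m := by rw [Nat.card_Icc, Nat.add_sub_cancel]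
      have key := Pool.Agent.R485.TransS.weyl_box (d := r) (K := K) (by omega) (Icc 1 m) hne
        (fun i l => z l * b l ^ i) (τ * N / m) (by positivity) (by
          intro h' hne' hle'
          rw [hcard]
          have e1 : τ * N / m * m = τ * N := by field_simp
          rw [e1]
          have h5 := h (n / s) h2 h' (mem_HH.2 ⟨hne', hle'⟩) h3
          exact h5) u v (fun l => (huv l).1) (fun l => (huv l).2.1.le) (fun l => (huv l).2.2)
      rw [hcard] at key
      rw [mul_comm (∏ l, (v l - u l)) (m : ℝ)]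
      refine key.trans ?_
      have e1 : ((2 * (K : ℝ) ^ 3 + 1) ^ r * (τ * N / m) + r * (12 / K + 5 * (τ * N / m))) * m =
          (2 * (K : ℝ) ^ 3 + 1) ^ r * τ * N + r * (12 / K * m + 5 * τ * N) := by
        field_simp
      rw [e1, hQ]
      have h6 : 12 / (K : ℝ) * m ≤ 12 / K * N := by gcongr
      have h7 : (r : ℝ) * (12 / (K : ℝ) * m) ≤ r * (12 / K * N) :=
        mul_le_mul_of_nonneg_left h6 (Nat.cast_nonneg r)
      nlinarith
  have h5 := Dev_mono b m (n % s) _ z h4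
  rw [h1] at h5
  intro u v huv
  refine (h5 u v huv).trans ?_
  have h6 : ((n % s : ℕ) : ℝ) ≤ 2 / R * N := by
    have h7 : n % s ≤ N / R := Nat.le_of_lt_succ (Nat.mod_lt n (Nat.succ_pos _))
    have h8 : ((n % s : ℕ) : ℝ) ≤ ((N / R : ℕ) : ℝ) := Nat.cast_le.2 h7
    have h9 : ((N / R : ℕ) : ℝ) ≤ N / R := Nat.cast_div_le
    have h10 : (N : ℝ) / R ≤ 2 / R * N := by
      rw [div_mul_eq_mul_div]
      gcongr
      linarith
    linarith
  have h9 : (Q + 2 / R) * N ≤ η * N := mul_le_mul_of_nonneg_right hp hNR.le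
  nlinarith

/-- the exceptional numerators at the scale `N` -/
noncomputable def BdN {r : ℕ} (b : Fin r → ℝ) (N M : ℕ) (η : ℝ) (x : Fin r → ℝ)
    (y : ℕ → Fin r → ℝ) (J : ℕ → ℤ) (q : ℕ) : Finset ℕ :=
  open Classical in (range M).filter fun m : ℕ => ¬ ∀ n : ℕ, n ≤ N →
    Dev b n (η * N) (fun l => y q l + (J q + m) * (x l / q))

/-- **the exceptional set at one scale** -/
theorem scale (r : ℕ) (η : ℝ) (hη : 0 < η) : ∃ (K R : ℕ) (C : ℝ), 1 ≤ K ∧ 0 ≤ C ∧
    ∀ (b : Fin r → ℝ) (N M H G : ℕ) (x : Fin r → ℝ) (κ L : ℝ) (y : ℕ → Fin r → ℝ) (J : ℕ → ℤ),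
      R ≤ N → 1 ≤ N → 0 < κ →
      (∀ h ∈ HH r K, ∀ i j : ℕ, j < i → G < i →
        κ * H < |∑ k, h k * (x k * b k ^ i) - ∑ k, h k * (x k * b k ^ j)|) →
      (∀ h ∈ HH r K, ∀ i ∈ Icc 1 N, ∀ j ∈ Icc 1 N,
        |∑ k, h k * (x k * b k ^ i) - ∑ k, h k * (x k * b k ^ j)| + κ * H ≤ Real.exp L) → 0 ≤ L →
      ∑ q ∈ PH H, Real.log q * ((BdN b N M η x y J q).card : ℝ) ≤
        C * (M * (th H * (1 / N + ((G : ℝ) / N) ^ 2) + (2 * (κ * H) + 1) * L) + th H * (2 / κ)) := by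
  classical
  obtain ⟨K, R, τ, hK, hR, hτ, hp⟩ := params r η hη
  refine ⟨K, R, (((HH r K).card : ℝ) * (R + 1)) / τ ^ 2, hK, by positivity,
    fun b N M H G x κ L y J hRN hN hκ hG hL hL0 => ?_⟩
  have hNR : (0 : ℝ) < N := by exact_mod_cast hN
  -- the exceptional sets for the single sums
  set X : (Fin r → ℤ) → ℕ → ℝ := fun h i => ∑ k, h k * (x k * b k ^ i) with hX
  set Y : (Fin r → ℤ) → ℕ → ℕ → ℝ := fun h q i => ∑ k, h k * (y q k * b k ^ i) with hY
  set S : (Fin r → ℤ) → ℕ → ℕ → ℕ → ℝ := fun h l q m =>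
    ‖∑ i ∈ Icc 1 (l * (N / R + 1)), e (Y h q i + (J q + m) * (X h i / q))‖ with hS
  set W : (Fin r → ℤ) → ℕ → ℕ → Finset ℕ := fun h l q =>
    (range M).filter fun m => τ * N < S h l q m with hW
  have hsub : ∀ q, BdN b N M η x y J q ⊆ (HH r K).biUnion fun h =>
      ((range (R + 1)).filter fun l => l * (N / R + 1) ≤ N).biUnion fun l => W h l q := by
    intro q m hm
    unfold BdN at hm
    rw [mem_filter] at hm
    obtain ⟨hm, hbad⟩ := hm
    by_contra hcon
    apply hbad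
    refine Dev_of b N K R τ η _ hK hR hτ hRN hp ?_
    intro l hl h hh hlN
    by_contra hc2
    push Not at hc2
    apply hcon
    rw [mem_biUnion]
    refine ⟨h, hh, ?_⟩
    rw [mem_biUnion]
    refine ⟨l, mem_filter.2 ⟨mem_range.2 (by omega), hlN⟩, ?_⟩
    rw [hW, mem_filter]
    refine ⟨hm, ?_⟩
    rw [hS]
    simp only
    have : ∀ i : ℕ, (∑ k, (h k : ℝ) * ((y q k + (J q + m) * (x k / q)) * b k ^ i)) =
        Y h q i + (J q + m) * (X h i / q) := fun i => by
      rw [hX, hY]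
      simp only
      rw [sum_div, mul_sum, ← sum_add_distrib]
      exact sum_congr rfl fun k _ => by ring
    simp_rw [this] at hc2
    exact hc2
  set V : ℝ := M * (th H * (1 / N + ((G : ℝ) / N) ^ 2) + (2 * (κ * H) + 1) * L) + th H * (2 / κ) with hV
  have hth := th_nonneg H
  have hone : ∀ h ∈ HH r K, ∀ l ∈ (range (R + 1)).filter fun l => l * (N / R + 1) ≤ N,
      ∑ q ∈ PH H, Real.log q * ((W h l q).card : ℝ) ≤ V / τ ^ 2 := by
    intro h hh l hl
    rw [mem_filter] at hl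
    set n := l * (N / R + 1) with hn
    have hnN : (n : ℝ) ≤ N := Nat.cast_le.2 hl.2
    have hn0 : (0 : ℝ) ≤ n := Nat.cast_nonneg _
    have h1 := mom_all n G H M (X h) κ L hκ (hG h hh) (fun i hi j hj => hL h hh i
      (mem_Icc.2 ⟨(mem_Icc.1 hi).1, (mem_Icc.1 hi).2.trans hl.2⟩) j
      (mem_Icc.2 ⟨(mem_Icc.1 hj).1, (mem_Icc.1 hj).2.trans hl.2⟩)) hL0 (Y h) J
    have h2 : ∀ q ∈ PH H, Real.log q * ((W h l q).card : ℝ) * (τ * N) ^ 2 ≤
        Real.log q * ∑ m ∈ range M, ‖∑ i ∈ Icc 1 n, e (Y h q i + (J q + m) * (X h i / q))‖ ^ 2 := by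
      intro q hq
      rw [mul_assoc]
      apply mul_le_mul_of_nonneg_left _ (Real.log_natCast_nonneg q)
      calc ((W h l q).card : ℝ) * (τ * N) ^ 2 = ∑ m ∈ W h l q, (τ * N) ^ 2 := by
            rw [sum_const, nsmul_eq_mul]
        _ ≤ ∑ m ∈ W h l q, S h l q m ^ 2 := by
            refine sum_le_sum fun m hm => ?_
            exact pow_le_pow_left₀ (by positivity) (mem_filter.1 hm).2.le _
        _ ≤ ∑ m ∈ range M, S h l q m ^ 2 :=
            sum_le_sum_of_subset_of_nonneg (filter_subset _ _) fun m _ _ => by positivity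
    have h3 : (∑ q ∈ PH H, Real.log q * ((W h l q).card : ℝ)) * (τ * N) ^ 2 ≤ V * N ^ 2 := by
      rw [sum_mul]
      refine (sum_le_sum h2).trans (h1.trans ?_)
      have hκH : 0 ≤ κ * H := by positivity
      have e1 : V * (N : ℝ) ^ 2 = M * (th H * (N + (G : ℝ) ^ 2) + (N : ℝ) ^ 2 * ((2 * (κ * H) + 1) * L)) +
          th H * ((N : ℝ) ^ 2 * (2 / κ)) := by
        rw [hV]
        field_simp
      rw [e1]
      gcongr
    rw [le_div_iff₀ (by positivity)]
    rw [mul_pow, ← mul_assoc] at h3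
    exact le_of_mul_le_mul_right h3 (by positivity)
  have hV0 : 0 ≤ V / τ ^ 2 := by
    have hκH : 0 ≤ κ * H := by positivity
    positivity
  calc ∑ q ∈ PH H, Real.log q * ((BdN b N M η x y J q).card : ℝ)
      ≤ ∑ q ∈ PH H, Real.log q * ∑ h ∈ HH r K,
          ∑ l ∈ (range (R + 1)).filter (fun l => l * (N / R + 1) ≤ N), ((W h l q).card : ℝ) := by
        refine sum_le_sum fun q hq => mul_le_mul_of_nonneg_left ?_ (Real.log_natCast_nonneg q)
        refine (Nat.cast_le.2 (card_le_card (hsub q))).trans ?_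
        refine (Nat.cast_le.2 card_biUnion_le).trans ?_
        push_cast
        refine sum_le_sum fun h _ => (Nat.cast_le.2 card_biUnion_le).trans ?_
        push_cast
        exact le_rfl
    _ = ∑ h ∈ HH r K, ∑ l ∈ (range (R + 1)).filter (fun l => l * (N / R + 1) ≤ N),
          ∑ q ∈ PH H, Real.log q * ((W h l q).card : ℝ) := by
        simp_rw [mul_sum]
        rw [sum_comm]
        refine sum_congr rfl fun h _ => ?_
        rw [sum_comm]
    _ ≤ ∑ h ∈ HH r K, ∑ l ∈ (range (R + 1)).filter (fun l => l * (N / R + 1) ≤ N), V / τ ^ 2 :=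
        sum_le_sum fun h hh => sum_le_sum fun l hl => hone h hh l hl
    _ ≤ ∑ h ∈ HH r K, (R + 1) * (V / τ ^ 2) := by
        refine sum_le_sum fun h _ => ?_
        rw [sum_const, nsmul_eq_mul]
        apply mul_le_mul_of_nonneg_right _ hV0
        have := card_filter_le (range (R + 1)) (fun l => l * (N / R + 1) ≤ N)
        rw [card_range] at this
        exact_mod_cast this
    _ = (((HH r K).card : ℝ) * (R + 1)) / τ ^ 2 * V := by
        rw [sum_const, nsmul_eq_mul]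
        ring

end Pool.Agent.K9h10.RG
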